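import Pool.Agent.V11223.HW.Alg
import Pool.Agent.H532R2.IntPoly

/-!
# The algorithm runs in polynomial time
-/

namespace Pool.Agent.NPC.V11223HW

open Pool.Agent.V11223.HW

variable {α : Type} [TEnc α]

/-- the sign of a rational number -/
theorem Poly_ratPos {q : α → ℚ} (hq : Poly q) : Poly (fun a => decide (0 < q a)) := by
  have h1 : Poly (fun a => (q a).num) :=
    Poly.fst (f := fun a => ((q a).num, (q a).den)) hq
  refine (Poly.and (Poly.not (H532.Poly_isNeg h1))
    (Poly.not (Poly.decide_eq h1 (Poly.const 0)))).congr fun a => ?_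
  by_cases h : 0 < q a
  · have h2 : 0 < (q a).num := Rat.num_pos.2 h
    have h3 : ¬ (q a).num < 0 := by omega
    have h4 : (q a).num ≠ 0 := by omega
    rw [decide_eq_true h, decide_eq_false h3, decide_eq_false h4]
    rfl
  · have h2 : ¬ 0 < (q a).num := fun h3 => h (Rat.num_pos.1 h3)
    simp only [h, decide_false]
    by_cases h4 : (q a).num < 0
    · simp [h4]
    · have h5 : (q a).num = 0 := by omega
      simp [h5]

theorem headD_poly {β : Type} [TEnc β] {l : α → List β} {d : α → β} (hl : Poly l) (hd : Poly d) :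
    Poly (fun a => (l a).headD (d a)) := by
  refine (Poly.listCases (g := d) (h := fun _ b _ => b) hl hd
    (Poly.fst (Poly.snd Poly.id))).congr fun a => ?_
  cases l a <;> rfl

theorem dimN_poly {c : α → List (List (List ℚ))} (hc : Poly c) : Poly (fun a => dimN (c a)) :=
  Poly.length (headD_poly hc (Poly.const []))

theorem dimN_upoly {c : α → List (List (List ℚ))} (hc : Poly c) : UPoly (fun a => dimN (c a)) :=
  UPoly.length (headD_poly hc (Poly.const []))

theorem adjC_poly {c : α → List (List (List ℚ))} {k u v : α → ℕ} (hc : Poly c) (hk : Poly k)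
    (hu : Poly u) (hv : Poly v) : Poly (fun a => adjC (c a) (k a) (u a) (v a)) := by
  unfold adjC
  exact Poly_ratPos (Poly.getD (Poly.getD (Poly.getD hc hk (Poly.const [])) hu (Poly.const [])) hv
    (Poly.const 0))

theorem edgesC_poly {c : α → List (List (List ℚ))} (hc : Poly c) : Poly (fun a => edgesC (c a)) := by
  unfold edgesC
  refine Poly.flatMap (F := fun a u => (List.range (c a).length).flatMap fun k =>
    ((List.range (dimN (c a))).filter fun v => adjC (c a) k u v).map fun v => (u, k, v))
    (dimN_upoly hc).range ?_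
  refine Poly.flatMap (F := fun (p : α × ℕ) k =>
    ((List.range (dimN (c p.1))).filter fun v => adjC (c p.1) k p.2 v).map fun v => (p.2, k, v))
    (UPoly.length (hc.comp (Poly.fst Poly.id))).range ?_
  refine Poly.map (F := fun (p : (α × ℕ) × ℕ) v => (p.1.2, p.2, v)) ?_ ?_
  · refine Poly.filter (p := fun (p : (α × ℕ) × ℕ) v => adjC (c p.1.1) p.2 p.1.2 v)
      (dimN_upoly (hc.comp (Poly.fst (Poly.fst Poly.id)))).range ?_
    exact adjC_poly (hc.comp (Poly.fst (Poly.fst (Poly.fst Poly.id))))
      (Poly.snd (Poly.fst Poly.id)) (Poly.snd (Poly.fst (Poly.fst Poly.id))) (Poly.snd Poly.id)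
  · exact Poly.pair (Poly.snd (Poly.fst (Poly.fst Poly.id)))
      (Poly.pair (Poly.snd (Poly.fst Poly.id)) (Poly.snd Poly.id))

theorem look_poly {S : α → List (ℕ × List ℕ)} {v : α → ℕ} (hS : Poly S) (hv : Poly v) :
    Poly (fun a => look (S a) (v a)) := by
  unfold look
  exact Poly.snd (headD_poly (Poly.filter (p := fun a (p : ℕ × List ℕ) => decide (p.1 = v a)) hS
    (Poly.decide_eq (Poly.fst (Poly.snd Poly.id)) (hv.comp (Poly.fst Poly.id)))) (Poly.const _))

theorem has_poly {S : α → List (ℕ × List ℕ)} {v : α → ℕ} (hS : Poly S) (hv : Poly v) :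
    Poly (fun a => has (S a) (v a)) := by
  unfold has
  exact Poly.any (p := fun a (p : ℕ × List ℕ) => decide (p.1 = v a)) hS
    (Poly.decide_eq (Poly.fst (Poly.snd Poly.id)) (hv.comp (Poly.fst Poly.id)))

theorem relax_poly {S : α → List (ℕ × List ℕ)} {e : α → ℕ × ℕ × ℕ} (hS : Poly S) (he : Poly e) :
    Poly (fun a => relax (S a) (e a)) := by
  unfold relax
  refine Poly.ite (Poly.decide_and
    (Poly.decide_eq (has_poly hS (Poly.fst he)) (Poly.const true))
    (Poly.decide_eq (has_poly hS (Poly.snd (Poly.snd he))) (Poly.const false))) ?_ hS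
  exact Poly.cons (Poly.pair (Poly.snd (Poly.snd he)) (Poly.cons (Poly.fst (Poly.snd he))
    (look_poly hS (Poly.fst he)))) hS

theorem flatten_replicate_poly {β : Type} [TEnc β] {n : α → ℕ} {E : α → List β} (hn : UPoly n)
    (hE : Poly E) : Poly (fun a => (List.replicate (n a) (E a)).flatten) := by
  refine (Poly.flatten (Poly.map (F := fun a (_ : Unit) => E a) hn
    (hE.comp (Poly.fst Poly.id)))).congr fun a => ?_
  simp

/-- Sizes of the states of the search. -/
theorem sz_state_le {B : ℕ} {S : List (ℕ × List ℕ)} (h1 : ∀ p ∈ S, p.1 ≤ B)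
    (h2 : ∀ p ∈ S, p.2.length < S.length) (h3 : ∀ p ∈ S, ∀ c ∈ p.2, c ≤ B) (h4 : S.length ≤ B + 1) :
    sz S ≤ (B + 1) * ((4 * B + 1) + ((B + 1) * (4 * B + 2) + 1) + 2) + 1 := by
  have key : ∀ p ∈ S, sz p ≤ (4 * B + 1) + ((B + 1) * (4 * B + 2) + 1) + 1 := by
    intro p hp
    obtain ⟨v, w⟩ := p
    rw [sz_pair]
    have e1 := sz_nat_le v
    have e2 := Poly.size_le_self v
    have e3 := h1 _ hp
    simp only at e3
    have e4 : sz w ≤ w.length * (4 * B + 1 + 1) + 1 := by
      refine sz_le_length_mul w _ fun c hc => ?_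
      have f1 := sz_nat_le c
      have f2 := Poly.size_le_self c
      have f3 := h3 _ hp c hc
      omega
    have e5 := h2 _ hp
    simp only at e5
    have e6 : w.length * (4 * B + 1 + 1) ≤ (B + 1) * (4 * B + 2) :=
      Nat.mul_le_mul (by omega) (by omega)
    omega
  refine (sz_le_length_mul S _ key).trans ?_
  have : S.length * ((4 * B + 1) + ((B + 1) * (4 * B + 2) + 1) + 1 + 1) ≤
      (B + 1) * ((4 * B + 1) + ((B + 1) * (4 * B + 2) + 1) + 2) :=
    Nat.mul_le_mul h4 (by omega)
  omega

/-- The search is polynomial if vertices and colours are bounded. -/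
theorem bfs_poly {n : α → ℕ} {E : α → List (ℕ × ℕ × ℕ)} (hn : UPoly n) (hE : Poly E)
    (B : Polynomial ℕ) (hB : ∀ a, n a ≤ B.eval (sz a)) (hv : ∀ a, ∀ e ∈ E a, e.2.2 ≤ n a)
    (hc : ∀ a, ∀ e ∈ E a, e.2.1 ≤ B.eval (sz a)) : Poly (fun a => bfs (n a) (E a)) := by
  unfold bfs
  refine Poly.foldl (F := fun _ => relax) (flatten_replicate_poly hn hE) (Poly.const _)
    (relax_poly (Poly.fst (Poly.snd Poly.id)) (Poly.snd (Poly.snd Poly.id)))
    ((B + 1) * ((4 * B + 1) + ((B + 1) * (4 * B + 2) + 1) + 2) + 1) ?_
  intro a k _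
  let R : ℕ → List ℕ → Prop := fun _ w => ∀ c ∈ w, c ≤ B.eval (sz a)
  have hI : Inv (n a) (E a) R
      ((((List.replicate (n a) (E a)).flatten).take k).foldl relax [(0, [])]) := by
    refine Inv.foldl (hv a) ?_ _ ?_ (inv_init ?_)
    · intro e he w hw c hcw
      rcases List.mem_cons.1 hcw with rfl | hcw
      · exact hc a e he
      · exact hw c hcw
    · intro e he
      have he := List.mem_of_mem_take he
      simp only [List.mem_flatten, List.mem_replicate] at he
      obtain ⟨l, ⟨_, rfl⟩, he⟩ := he
      exact he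
    · intro c hc
      simp at hc
  set S := (((List.replicate (n a) (E a)).flatten).take k).foldl relax [(0, [])] with hS
  have hlen : S.length ≤ n a + 1 := by
    have h1 : (S.map Prod.fst).toFinset ⊆ Finset.range (n a + 1) := by
      intro v hv
      rw [List.mem_toFinset] at hv
      obtain ⟨p, hp, rfl⟩ := List.mem_map.1 hv
      rw [Finset.mem_range]
      have := hI.le p hp
      omega
    have h2 := Finset.card_le_card h1
    rw [List.toFinset_card_of_nodup hI.nodup, List.length_map, Finset.card_range] at h2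
    exact h2
  have := sz_state_le (B := B.eval (sz a)) (S := S) (fun p hp => (hI.le p hp).trans (hB a)) hI.len
    (fun p hp => hI.good p hp) (hlen.trans (Nat.add_le_add_right (hB a) 1))
  simpa using this

theorem mem_edgesC {c : List (List (List ℚ))} {e : ℕ × ℕ × ℕ} (h : e ∈ edgesC c) :
    e.1 < dimN c ∧ e.2.1 < c.length ∧ e.2.2 < dimN c := by
  unfold edgesC at h
  simp only [List.mem_flatMap, List.mem_range, List.mem_map, List.mem_filter] at h
  obtain ⟨u, hu, k, hk, v, ⟨hv, _⟩, rfl⟩ := h
  exact ⟨hu, hk, hv⟩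

theorem two_pow_poly {e : α → ℕ} (he : UPoly e) : Poly (fun a => 2 ^ e a) := by
  have h1 : Poly (fun a => List.replicate (e a) false) :=
    (Poly.map (F := fun _ (_ : Unit) => false) he (Poly.const false)).congr fun a => by simp
  refine (Poly.valBits (Poly.append h1 (Poly.const [true]))).congr fun a => ?_
  rw [valB_append]
  have : ∀ n, valB (List.replicate n false) = 0 := by
    intro n
    induction n with
    | zero => rfl
    | succ n ih => rw [List.replicate_succ]; simp [valB, ih]
  rw [this]
  simp [valB]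

theorem count_poly {l : α → List ℕ} {k : α → ℕ} (hl : Poly l) (hk : Poly k) :
    Poly (fun a => (l a).count (k a)) := by
  refine (Poly.length (Poly.filter (p := fun a (x : ℕ) => decide (x = k a)) hl
    (Poly.decide_eq (Poly.snd Poly.id) (hk.comp (Poly.fst Poly.id))))).congr fun a => ?_
  rw [List.count_eq_length_filter]
  congr 1

theorem algo_poly : Poly algo := by
  have hc : Poly (fun c : List (List (List ℚ)) => c) := Poly.id
  have hlen : ∀ c : List (List (List ℚ)), c.length ≤ sz c := fun c => (length_lt_sz c).le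
  have hdim : ∀ c : List (List (List ℚ)), dimN c ≤ sz c := by
    intro c
    unfold dimN
    cases c with
    | nil => simp
    | cons a l =>
      have := length_lt_sz a
      simp only [List.headD_cons, sz_list_cons]
      omega
  have hE : Poly (fun c : List (List (List ℚ)) => edgesC c) := edgesC_poly hc
  have hE' : Poly (fun c : List (List (List ℚ)) => (edgesC c).map rev) :=
    Poly.map (F := fun _ => rev) hE (by
      unfold rev
      exact Poly.pair (Poly.snd (Poly.snd (Poly.snd Poly.id)))
        (Poly.pair (Poly.fst (Poly.snd (Poly.snd Poly.id))) (Poly.fst (Poly.snd Poly.id))))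
  have hS : Poly (fun c : List (List (List ℚ)) => bfs (dimN c) (edgesC c)) :=
    bfs_poly (dimN_upoly hc) hE Polynomial.X (fun c => by simpa using hdim c)
      (fun c e he => (mem_edgesC he).2.2.le)
      (fun c e he => by
        have := (mem_edgesC he).2.1
        have := hlen c
        simp only [Polynomial.eval_X]
        omega)
  have hS' : Poly (fun c : List (List (List ℚ)) => bfs (dimN c) ((edgesC c).map rev)) :=
    bfs_poly (dimN_upoly hc) hE' Polynomial.X (fun c => by simpa using hdim c)
      (fun c e he => by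
        obtain ⟨e', he', rfl⟩ := List.mem_map.1 he
        exact (mem_edgesC he').1.le)
      (fun c e he => by
        obtain ⟨e', he', rfl⟩ := List.mem_map.1 he
        have := (mem_edgesC he').2.1
        have := hlen c
        simp only [Polynomial.eval_X, rev]
        omega)
  have hW : Poly (fun c : List (List (List ℚ)) =>
      allWords c (bfs (dimN c) (edgesC c)) (bfs (dimN c) ((edgesC c).map rev))) := by
    unfold allWords
    refine Poly.append ?_ ?_
    · refine Poly.flatMap (F := fun (c : List (List (List ℚ))) (e : ℕ × ℕ × ℕ) =>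
        look (bfs (dimN c) (edgesC c)) e.1 ++
          (e.2.1 :: look (bfs (dimN c) ((edgesC c).map rev)) e.2.2)) hE ?_
      exact Poly.append (look_poly (hS.comp (Poly.fst Poly.id)) (Poly.fst (Poly.snd Poly.id)))
        (Poly.cons (Poly.fst (Poly.snd (Poly.snd Poly.id)))
          (look_poly (hS'.comp (Poly.fst Poly.id)) (Poly.snd (Poly.snd (Poly.snd Poly.id)))))
    · refine Poly.flatMap (F := fun (c : List (List (List ℚ))) (v : ℕ) =>
        look (bfs (dimN c) (edgesC c)) v ++ look (bfs (dimN c) ((edgesC c).map rev)) v)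
        (dimN_upoly hc).range ?_
      exact Poly.append (look_poly (hS.comp (Poly.fst Poly.id)) (Poly.snd Poly.id))
        (look_poly (hS'.comp (Poly.fst Poly.id)) (Poly.snd Poly.id))
  have hm : UPoly (fun c : List (List (List ℚ)) => c.length) := UPoly.length hc
  have hd := dimN_upoly hc
  have hexpo : UPoly (fun c : List (List (List ℚ)) => expo (dimN c) c.length) := by
    unfold expo
    refine UPoly.add (UPoly.add (UPoly.mul hm hm) (UPoly.mul (UPoly.mul (UPoly.const 2)
      (UPoly.add hd (UPoly.const 1))) hm)) ?_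
    refine UPoly.add (UPoly.const 1) (UPoly.mul hm (UPoly.add ?_ ?_))
    · exact UPoly.mul (UPoly.const 2) (UPoly.mul (UPoly.const 2) (UPoly.add hd (UPoly.const 1)))
    · exact UPoly.mul (UPoly.add (UPoly.mul hd (UPoly.mul hm hd)) hd)
        (UPoly.mul (UPoly.const 2) (UPoly.add hd (UPoly.const 1)))
  unfold algo
  refine Poly.ite (Poly.decide_eq (dimN_poly hc) (Poly.const 0)) ?_ ?_
  · exact Poly.map (F := fun _ _ => 1) hm.range (Poly.const 1)
  · refine Poly.map (F := fun (c : List (List (List ℚ))) (k : ℕ) => 2 ^ expo (dimN c) c.length *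
      (allWords c (bfs (dimN c) (edgesC c)) (bfs (dimN c) ((edgesC c).map rev))).count k)
      hm.range ?_
    exact Poly.mul ((two_pow_poly hexpo).comp (Poly.fst Poly.id))
      (count_poly (hW.comp (Poly.fst Poly.id)) (Poly.snd Poly.id))

end Pool.Agent.NPC.V11223HW
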