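import Pool.Agent.V11223.HW.Pos

/-!
# The algorithm
-/

namespace Pool.Agent.V11223.HW

open Finset

/-- number of rows -/
def dimN (c : List (List (List ℚ))) : ℕ := (c.headD []).length

/-- positive entries -/
def adjC (c : List (List (List ℚ))) (k u v : ℕ) : Bool :=
  decide (0 < (((c.getD k []).getD u []).getD v 0))

/-- the coloured edges `(u, k, v)` -/
def edgesC (c : List (List (List ℚ))) : List (ℕ × ℕ × ℕ) :=
  (List.range (dimN c)).flatMap fun u => (List.range c.length).flatMap fun k =>
    ((List.range (dimN c)).filter fun v => adjC c k u v).map fun v => (u, k, v)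

/-- reversed edge -/
def rev (e : ℕ × ℕ × ℕ) : ℕ × ℕ × ℕ := (e.2.2, e.2.1, e.1)

/-- the word of a vertex -/
def look (S : List (ℕ × List ℕ)) (v : ℕ) : List ℕ :=
  ((S.filter fun p => decide (p.1 = v)).headD (0, [])).2

/-- is there an entry for the vertex -/
def has (S : List (ℕ × List ℕ)) (v : ℕ) : Bool := S.any fun p => decide (p.1 = v)

/-- exploring one edge -/
def relax (S : List (ℕ × List ℕ)) (e : ℕ × ℕ × ℕ) : List (ℕ × List ℕ) :=
  if has S e.1 = true ∧ has S e.2.2 = false then (e.2.2, e.2.1 :: look S e.1) :: S else S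

/-- the search -/
def bfs (n : ℕ) (E : List (ℕ × ℕ × ℕ)) : List (ℕ × List ℕ) :=
  ((List.replicate n E).flatten).foldl relax [(0, [])]

/-- all words -/
def allWords (c : List (List (List ℚ))) (S S' : List (ℕ × List ℕ)) : List ℕ :=
  ((edgesC c).flatMap fun e => look S e.1 ++ (e.2.1 :: look S' e.2.2)) ++
    (List.range (dimN c)).flatMap fun v => look S v ++ look S' v

/-- exponent -/
def expo (n m : ℕ) : ℕ :=
  m * m + (2 * (n + 1)) * m + (1 + m * (2 * (2 * (n + 1)) + (n * (m * n) + n) * (2 * (n + 1))))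

/-- the algorithm -/
def algo (c : List (List (List ℚ))) : List ℕ :=
  if dimN c = 0 then (List.range c.length).map fun _ => 1 else
    (List.range c.length).map fun k => 2 ^ expo (dimN c) c.length *
      (allWords c (bfs (dimN c) (edgesC c)) (bfs (dimN c) ((edgesC c).map rev))).count k

theorem factor_le (n m : ℕ) : factor n m (2 * (n + 1)) ≤ 2 ^ expo n m := by
  unfold factor expo
  rw [pow_add, pow_add]
  refine Nat.mul_le_mul (Nat.mul_le_mul ?_ ?_) ?_
  · calc m.factorial ≤ m ^ m := Nat.factorial_le_pow m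
      _ ≤ (2 ^ m) ^ m := Nat.pow_le_pow_left Nat.lt_two_pow_self.le _
      _ = 2 ^ (m * m) := by rw [← pow_mul]
  · calc (2 * (n + 1)) ^ m ≤ (2 ^ (2 * (n + 1))) ^ m := Nat.pow_le_pow_left Nat.lt_two_pow_self.le _
      _ = 2 ^ (2 * (n + 1) * m) := by rw [← pow_mul]
  · exact Nat.lt_two_pow_self.le

/-! ### Properties of the search -/

theorem has_iff {S : List (ℕ × List ℕ)} {v : ℕ} : has S v = true ↔ v ∈ S.map Prod.fst := by
  simp [has, List.any_eq_true]

theorem has_false_iff {S : List (ℕ × List ℕ)} {v : ℕ} :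
    has S v = false ↔ v ∉ S.map Prod.fst := by
  rw [← has_iff]
  simp

theorem look_mem {S : List (ℕ × List ℕ)} {v : ℕ} (h : v ∈ S.map Prod.fst) :
    (v, look S v) ∈ S := by
  obtain ⟨p, hp, rfl⟩ := List.mem_map.1 h
  unfold look
  cases hf : S.filter (fun q => decide (q.1 = p.1)) with
  | nil =>
    have := List.filter_eq_nil_iff.1 hf p hp
    simp at this
  | cons q l =>
    have hq : q ∈ S.filter (fun q => decide (q.1 = p.1)) := by rw [hf]; exact List.mem_cons_self
    rw [List.mem_filter] at hq
    have h2 : q.1 = p.1 := by simpa using hq.2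
    rw [List.headD_cons, ← h2]
    exact hq.1

/-- invariant of the search -/
structure Inv (n : ℕ) (E : List (ℕ × ℕ × ℕ)) (R : ℕ → List ℕ → Prop) (S : List (ℕ × List ℕ)) :
    Prop where
  nodup : (S.map Prod.fst).Nodup
  le : ∀ p ∈ S, p.1 ≤ n
  len : ∀ p ∈ S, p.2.length < S.length
  good : ∀ p ∈ S, R p.1 p.2
  root : (0, []) ∈ S

theorem Inv.relax {n : ℕ} {E : List (ℕ × ℕ × ℕ)} {R : ℕ → List ℕ → Prop}
    {S : List (ℕ × List ℕ)} (h : Inv n E R S) {e : ℕ × ℕ × ℕ} (hn : e.2.2 ≤ n)
    (hR : ∀ w, R e.1 w → R e.2.2 (e.2.1 :: w)) : Inv n E R (relax S e) := by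
  unfold HW.relax
  split_ifs with hc
  · obtain ⟨h1, h2⟩ := hc
    rw [has_iff] at h1
    rw [has_false_iff] at h2
    have h3 := look_mem h1
    refine ⟨?_, ?_, ?_, ?_, ?_⟩
    · rw [List.map_cons, List.nodup_cons]
      exact ⟨h2, h.nodup⟩
    · intro p hp
      rcases List.mem_cons.1 hp with rfl | hp
      · exact hn
      · exact h.le p hp
    · intro p hp
      rcases List.mem_cons.1 hp with rfl | hp
      · have := h.len _ h3
        simp only [List.length_cons] at *
        omega
      · have := h.len p hp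
        simp only [List.length_cons]
        omega
    · intro p hp
      rcases List.mem_cons.1 hp with rfl | hp
      · exact hR _ (h.good _ h3)
      · exact h.good p hp
    · exact List.mem_cons_of_mem _ h.root
  · exact h

theorem Inv.foldl {n : ℕ} {E : List (ℕ × ℕ × ℕ)} {R : ℕ → List ℕ → Prop}
    (hn : ∀ e ∈ E, e.2.2 ≤ n) (hR : ∀ e ∈ E, ∀ w, R e.1 w → R e.2.2 (e.2.1 :: w)) :
    ∀ (L : List (ℕ × ℕ × ℕ)) {S : List (ℕ × List ℕ)}, (∀ e ∈ L, e ∈ E) → Inv n E R S →
      Inv n E R (L.foldl HW.relax S)
  | [], _, _, h => h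
  | e :: L, _, hL, h => by
    rw [List.foldl_cons]
    exact Inv.foldl hn hR L (fun x hx => hL x (List.mem_cons_of_mem _ hx))
      (h.relax (hn e (hL e List.mem_cons_self)) (hR e (hL e List.mem_cons_self)))

theorem inv_init {n : ℕ} {E : List (ℕ × ℕ × ℕ)} {R : ℕ → List ℕ → Prop} (h0 : R 0 []) :
    Inv n E R [(0, [])] := by
  refine ⟨by simp, ?_, ?_, ?_, by simp⟩
  · intro p hp
    rw [List.mem_singleton] at hp
    subst hp; simp
  · intro p hp
    rw [List.mem_singleton] at hp
    subst hp; simp
  · intro p hp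
    rw [List.mem_singleton] at hp
    subst hp; exact h0

/-- the domain only grows -/
theorem dom_relax {S : List (ℕ × List ℕ)} {e : ℕ × ℕ × ℕ} {v : ℕ} (h : v ∈ S.map Prod.fst) :
    v ∈ (relax S e).map Prod.fst := by
  unfold relax
  split_ifs
  · rw [List.map_cons]; exact List.mem_cons_of_mem _ h
  · exact h

theorem dom_foldl : ∀ (L : List (ℕ × ℕ × ℕ)) {S : List (ℕ × List ℕ)} {v : ℕ},
    v ∈ S.map Prod.fst → v ∈ (L.foldl relax S).map Prod.fst
  | [], _, _, h => h
  | e :: L, _, _, h => by
    rw [List.foldl_cons]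
    exact dom_foldl L (dom_relax h)

/-- after a round every edge from the old domain is explored -/
theorem dom_round : ∀ (L : List (ℕ × ℕ × ℕ)) {S : List (ℕ × List ℕ)} {e : ℕ × ℕ × ℕ},
    e ∈ L → e.1 ∈ S.map Prod.fst → e.2.2 ∈ (L.foldl relax S).map Prod.fst
  | e' :: L, S, e, he, h => by
    rw [List.foldl_cons]
    rcases List.mem_cons.1 he with rfl | he
    · apply dom_foldl
      unfold relax
      by_cases h2 : has S e.2.2 = true
      · split_ifs
        · rw [List.map_cons]; exact List.mem_cons_self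
        · exact has_iff.1 h2
      · rw [Bool.not_eq_true] at h2
        rw [if_pos ⟨has_iff.2 h, h2⟩, List.map_cons]
        exact List.mem_cons_self
    · exact dom_round L he (dom_relax h)

theorem foldl_length_le : ∀ (L : List (ℕ × ℕ × ℕ)) (S : List (ℕ × List ℕ)),
    S.length ≤ (L.foldl relax S).length
  | [], _ => le_rfl
  | e :: L, S => by
    rw [List.foldl_cons]
    refine le_trans ?_ (foldl_length_le L _)
    unfold relax
    split_ifs <;> simp

/-- if a round does not add an entry it changes nothing -/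
theorem foldl_eq_of_length : ∀ (L : List (ℕ × ℕ × ℕ)) (S : List (ℕ × List ℕ)),
    (L.foldl relax S).length = S.length → L.foldl relax S = S
  | [], _, _ => rfl
  | e :: L, S, h => by
    rw [List.foldl_cons] at h ⊢
    have h1 := foldl_length_le L (relax S e)
    have h2 : relax S e = S := by
      unfold relax at h h1 ⊢
      split_ifs at h h1 ⊢ with hc
      · simp only [List.length_cons] at h1
        omega
      · rfl
    rw [h2] at h ⊢
    exact foldl_eq_of_length L S h

/-- rounds -/
def rounds (E : List (ℕ × ℕ × ℕ)) (t : ℕ) (S : List (ℕ × List ℕ)) : List (ℕ × List ℕ) :=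
  ((List.replicate t E).flatten).foldl relax S

theorem rounds_succ (E : List (ℕ × ℕ × ℕ)) (t : ℕ) (S : List (ℕ × List ℕ)) :
    rounds E (t + 1) S = rounds E t (E.foldl relax S) := by
  unfold rounds
  rw [List.replicate_succ, List.flatten_cons, List.foldl_append]

theorem rounds_fix (E : List (ℕ × ℕ × ℕ)) (S : List (ℕ × List ℕ)) (h : E.foldl relax S = S) :
    ∀ t, rounds E t S = S
  | 0 => rfl
  | t + 1 => by rw [rounds_succ, h, rounds_fix E S h t]

theorem closed_or_long (E : List (ℕ × ℕ × ℕ)) : ∀ (t : ℕ) (S : List (ℕ × List ℕ)),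
    E.foldl relax (rounds E t S) = rounds E t S ∨ S.length + t + 1 ≤ (E.foldl relax (rounds E t S)).length
  | 0, S => by
    by_cases h : (E.foldl relax S).length = S.length
    · exact Or.inl (foldl_eq_of_length E S h)
    · right
      have := foldl_length_le E S
      change S.length + 0 + 1 ≤ (E.foldl relax S).length
      omega
  | t + 1, S => by
    rw [rounds_succ]
    by_cases h : (E.foldl relax S).length = S.length
    · left
      have h1 := foldl_eq_of_length E S h
      rw [h1, rounds_fix E S h1]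
      exact h1
    · have h2 := foldl_length_le E S
      rcases closed_or_long E t (E.foldl relax S) with h3 | h3
      · exact Or.inl h3
      · right; omega

end Pool.Agent.V11223.HW
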