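import Pool.Agent.V11223.HW.Lat

/-!
# Hurwitz products and coloured walks
-/

namespace Pool.Agent.V11223.HW

open Finset

/-- The Hurwitz product `𝒜^α`: the sum of the products `A (d 0) * A (d 1) * ⋯` over all words `d` of
length `|α|` in which every letter `k` occurs exactly `α k` times. -/
def hurwitz {n m : ℕ} (A : Fin m → Matrix (Fin n) (Fin n) ℚ) (α : Fin m → ℕ) :
    Matrix (Fin n) (Fin n) ℚ :=
  ∑ d ∈ (univ : Finset (Fin (∑ k, α k) → Fin m)).filter
      (fun d => ∀ k, (univ.filter fun t => d t = k).card = α k),
    (List.ofFn fun t => A (d t)).prod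

/-- The Hurwitz product `𝒜^α`, where `α` has length at least `1`, is a positive matrix. -/
def IsPositive {n m : ℕ} (A : Fin m → Matrix (Fin n) (Fin n) ℚ) (α : Fin m → ℕ) : Prop :=
  1 ≤ ∑ k, α k ∧ ∀ i j, 0 < hurwitz A α i j

section Walk

variable {n m : ℕ} (A : Fin m → Matrix (Fin n) (Fin n) ℚ)

/-- There is a walk from `i` to `j` with colour vector `v`. -/
def Walk (i j : Fin n) (v : Fin m → ℕ) : Prop :=
  ∃ w : List (Fin m), (∀ k, w.count k = v k) ∧ 0 < (w.map A).prod i j

variable {A}

theorem Walk.refl (i : Fin n) : Walk A i i 0 := ⟨[], by simp, by simp⟩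

theorem Walk.single {i j : Fin n} {k : Fin m} (h : 0 < A k i j) : Walk A i j (Pi.single k 1) := by
  refine ⟨[k], fun l => ?_, by simpa using h⟩
  by_cases hl : k = l
  · subst hl; simp
  · rw [List.count_singleton, Pi.single_eq_of_ne (fun h => hl h.symm)]
    simp [hl]

theorem prod_nonneg (hA : ∀ k i j, 0 ≤ A k i j) (w : List (Fin m)) (i j : Fin n) :
    0 ≤ (w.map A).prod i j := by
  induction w generalizing i with
  | nil =>
    simp only [List.map_nil, List.prod_nil, Matrix.one_apply]
    split_ifs <;> norm_num
  | cons k w ih =>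
    simp only [List.map_cons, List.prod_cons, Matrix.mul_apply]
    exact Finset.sum_nonneg fun l _ => mul_nonneg (hA k i l) (ih l)

theorem Walk.trans (hA : ∀ k i j, 0 ≤ A k i j) {i j l : Fin n} {v v' : Fin m → ℕ}
    (h : Walk A i j v) (h' : Walk A j l v') : Walk A i l (v + v') := by
  obtain ⟨w, h1, h2⟩ := h
  obtain ⟨w', h1', h2'⟩ := h'
  refine ⟨w ++ w', fun k => by rw [List.count_append, h1, h1']; rfl, ?_⟩
  rw [List.map_append, List.prod_append, Matrix.mul_apply]
  exact Finset.sum_pos' (fun k _ => mul_nonneg (prod_nonneg hA w i k) (prod_nonneg hA w' k l))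
    ⟨j, Finset.mem_univ _, mul_pos h2 h2'⟩

/-- Induction principle: a property of walks ending in `j`. -/
theorem Walk.cons_induction (hA : ∀ k i j, 0 ≤ A k i j) {j : Fin n}
    {P : Fin n → (Fin m → ℕ) → Prop} (h0 : P j 0)
    (h1 : ∀ i l k v, 0 < A k i l → P l v → P i (Pi.single k 1 + v)) {i : Fin n} {v : Fin m → ℕ}
    (h : Walk A i j v) : P i v := by
  obtain ⟨w, hw, hp⟩ := h
  induction w generalizing i v with
  | nil =>
    have hv : v = 0 := by
      funext k
      rw [← hw k]; simp
    have hij : i = j := by
      by_contra hne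
      simp [hne] at hp
    rw [hv, hij]; exact h0
  | cons k w ih =>
    simp only [List.map_cons, List.prod_cons, Matrix.mul_apply] at hp
    obtain ⟨l, _, hl⟩ : ∃ l ∈ (Finset.univ : Finset (Fin n)),
        0 < A k i l * (w.map A).prod l j := by
      by_contra hcon
      push Not at hcon
      exact absurd (Finset.sum_nonpos hcon) (not_le.2 hp)
    have h2 : 0 < A k i l := by
      rcases (hA k i l).lt_or_eq with h | h
      · exact h
      · rw [← h, zero_mul] at hl; exact absurd hl (lt_irrefl _)
    have h3 : 0 < (w.map A).prod l j := by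
      rcases (prod_nonneg hA w l j).lt_or_eq with h | h
      · exact h
      · rw [← h, mul_zero] at hl; exact absurd hl (lt_irrefl _)
    have h4 : v = Pi.single k 1 + fun c => w.count c := by
      funext c
      rw [← hw c, List.count_cons, Pi.add_apply]
      by_cases hc : k = c
      · subst hc; simp [add_comm]
      · rw [Pi.single_eq_of_ne (fun h => hc h.symm)]
        simp [hc]
    rw [h4]
    exact h1 i l k _ h2 (ih (fun _ => rfl) h3)

theorem card_filter_get (w : List (Fin m)) {N : ℕ} (hN : w.length = N) (k : Fin m) :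
    ((univ : Finset (Fin N)).filter fun t => w.get (t.cast hN.symm) = k).card = w.count k := by
  subst hN
  have h := Fin.card_filter_univ_eq_vector_get_eq_count k (⟨w, rfl⟩ : List.Vector (Fin m) w.length)
  simp only [List.Vector.get, List.Vector.toList] at h
  rw [← h]

theorem walk_iff (hA : ∀ k i j, 0 ≤ A k i j) (α : Fin m → ℕ) (i j : Fin n) :
    0 < hurwitz A α i j ↔ Walk A i j α := by
  unfold hurwitz
  rw [Matrix.sum_apply]
  constructor
  · intro h
    obtain ⟨d, hd, hp⟩ : ∃ d ∈ (univ : Finset (Fin (∑ k, α k) → Fin m)).filter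
        (fun d => ∀ k, (univ.filter fun t => d t = k).card = α k),
        0 < (List.ofFn fun t => A (d t)).prod i j := by
      by_contra hcon
      push Not at hcon
      exact absurd (Finset.sum_nonpos hcon) (not_le.2 h)
    refine ⟨List.ofFn d, fun k => ?_, ?_⟩
    · rw [← (Finset.mem_filter.1 hd).2 k]
      have hl : (List.ofFn d).length = ∑ k, α k := List.length_ofFn
      rw [← card_filter_get (List.ofFn d) hl k]
      congr 1
      ext t
      simp
    · rw [List.map_ofFn]
      exact hp
  · rintro ⟨w, hw, hp⟩
    have hl : w.length = ∑ k, α k := by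
      rw [← Finset.sum_congr rfl fun k _ => hw k]
      rw [← Multiset.coe_card, ← Multiset.toFinset_sum_count_eq]
      simp only [Multiset.coe_count]
      refine Finset.sum_subset (Finset.subset_univ _) fun k _ hk => ?_
      rw [List.count_eq_zero]
      intro h
      exact hk (Multiset.mem_toFinset.2 h)
    have hnn : ∀ d ∈ (univ : Finset (Fin (∑ k, α k) → Fin m)).filter
        (fun d => ∀ k, (univ.filter fun t => d t = k).card = α k),
        0 ≤ (List.ofFn fun t => A (d t)).prod i j := by
      intro d _
      have := prod_nonneg hA (List.ofFn d) i j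
      rwa [List.map_ofFn] at this
    refine Finset.sum_pos' hnn ⟨fun t => w.get (t.cast hl.symm), ?_, ?_⟩
    · rw [Finset.mem_filter]
      refine ⟨Finset.mem_univ _, fun k => ?_⟩
      rw [card_filter_get w hl k, hw]
    · have h1 : (List.ofFn fun t : Fin (∑ k, α k) => A (w.get (t.cast hl.symm))) = w.map A := by
        refine List.ext_getElem (by simp [hl]) fun t h1 h2 => ?_
        simp
      rw [h1]
      exact hp

end Walk

end Pool.Agent.V11223.HW
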