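import Pool.Agent.V11223.HW.Alg

/-!
# Correctness of the algorithm
-/

namespace Pool.Agent.V11223.HW

open Finset

/-- The list of the matrices, each given by the list of its rows. -/
def code {n m : ℕ} (A : Fin m → Matrix (Fin n) (Fin n) ℚ) : List (List (List ℚ)) :=
  List.ofFn fun k => List.ofFn fun i => List.ofFn fun j => A k i j

theorem sum_range_map (n : ℕ) (f : ℕ → ℕ) : ((List.range n).map f).sum = ∑ i : Fin n, f i := by
  rw [← Fin.sum_ofFn, List.ofFn_eq_map]
  congr 1
  rw [← List.map_coe_finRange_eq_range, List.map_map]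
  rfl

theorem sum_filter_map {β : Type} (l : List β) (p : β → Bool) (g : β → ℕ) :
    ((l.filter p).map g).sum = (l.map fun x => if p x = true then g x else 0).sum := by
  induction l with
  | nil => rfl
  | cons a l ih => cases h : p a <;> simp [h, ih]

section

variable {n m : ℕ} (A : Fin m → Matrix (Fin n) (Fin n) ℚ)

theorem length_code : (code A).length = m := by simp [code]

theorem dimN_code (hm : 0 < m) : dimN (code A) = n := by
  obtain ⟨m, rfl⟩ : ∃ m', m = m' + 1 := ⟨m - 1, by omega⟩
  simp [dimN, code, List.ofFn_succ]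

theorem adjC_code (k : Fin m) (u v : Fin n) : adjC (code A) k u v = decide (0 < A k u v) := by
  unfold adjC code
  simp [List.getD_eq_getElem?_getD]

/-- the number of occurrences of the colours -/
def vecOf (m : ℕ) (w : List ℕ) : Fin m → ℕ := fun k => w.count (k : ℕ)

theorem vecOf_nil : vecOf m [] = 0 := by funext k; simp [vecOf]

theorem vecOf_cons (k : Fin m) (w : List ℕ) : vecOf m ((k : ℕ) :: w) = Pi.single k 1 + vecOf m w := by
  funext l
  simp only [vecOf, List.count_cons, Pi.add_apply]
  by_cases h : k = l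
  · subst h; simp [add_comm]
  · rw [Pi.single_eq_of_ne (fun h' => h h'.symm)]
    have : (k : ℕ) ≠ l := fun h' => h (Fin.ext h')
    simp [this]

theorem vecOf_append (w w' : List ℕ) : vecOf m (w ++ w') = vecOf m w + vecOf m w' := by
  funext l
  simp [vecOf]

theorem vecOf_le (w : List ℕ) (k : Fin m) : vecOf m w k ≤ w.length := List.count_le_length

variable {A}

theorem mem_edges (hm : 0 < m) {e : ℕ × ℕ × ℕ} : e ∈ edgesC (code A) ↔
    ∃ (u : Fin n) (k : Fin m) (v : Fin n), e = ((u : ℕ), (k : ℕ), (v : ℕ)) ∧ 0 < A k u v := by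
  unfold edgesC
  rw [dimN_code A hm, length_code]
  simp only [List.mem_flatMap, List.mem_range, List.mem_map, List.mem_filter]
  constructor
  · rintro ⟨u, hu, k, hk, v, ⟨hv, h⟩, rfl⟩
    refine ⟨⟨u, hu⟩, ⟨k, hk⟩, ⟨v, hv⟩, rfl, ?_⟩
    have := adjC_code A ⟨k, hk⟩ ⟨u, hu⟩ ⟨v, hv⟩
    simp only at this
    rw [this] at h
    simpa using h
  · rintro ⟨u, k, v, rfl, h⟩
    exact ⟨u, u.2, k, k.2, v, ⟨v.2, by rw [adjC_code]; simpa using h⟩, rfl⟩

/-- a pigeonhole bound -/
theorem length_le_of_inv {n : ℕ} {E : List (ℕ × ℕ × ℕ)} {R : ℕ → List ℕ → Prop}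
    {S : List (ℕ × List ℕ)} (h : Inv n E R S) : S.length ≤ n + 1 := by
  have h1 : (S.map Prod.fst).toFinset ⊆ Finset.range (n + 1) := by
    intro v hv
    rw [List.mem_toFinset] at hv
    obtain ⟨p, hp, rfl⟩ := List.mem_map.1 hv
    rw [Finset.mem_range]
    have := h.le p hp
    omega
  have h2 := Finset.card_le_card h1
  rw [List.toFinset_card_of_nodup h.nodup, List.length_map, Finset.card_range] at h2
  exact h2

theorem bfs_closed {n : ℕ} {E : List (ℕ × ℕ × ℕ)} {R : ℕ → List ℕ → Prop}
    (hn : ∀ e ∈ E, e.2.2 ≤ n) (hR : ∀ e ∈ E, ∀ w, R e.1 w → R e.2.2 (e.2.1 :: w)) (h0 : R 0 []) :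
    Inv n E R (bfs n E) ∧ ∀ e ∈ E, e.1 ∈ (bfs n E).map Prod.fst → e.2.2 ∈ (bfs n E).map Prod.fst := by
  have hI : Inv n E R (bfs n E) := by
    refine Inv.foldl hn hR _ ?_ (inv_init h0)
    intro e he
    simp only [List.mem_flatten, List.mem_replicate] at he
    obtain ⟨l, ⟨_, rfl⟩, he⟩ := he
    exact he
  refine ⟨hI, ?_⟩
  have hI2 : Inv n E R (E.foldl relax (bfs n E)) := Inv.foldl hn hR E (fun _ h => h) hI
  have h1 := length_le_of_inv hI2
  have h2 : E.foldl relax (bfs n E) = bfs n E := by
    rcases closed_or_long E n [(0, [])] with h | h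
    · exact h
    · have h3 : (E.foldl relax (rounds E n [(0, [])])).length = (E.foldl relax (bfs n E)).length := rfl
      rw [h3] at h
      simp only [List.length_singleton] at h
      omega
  intro e he h
  have := dom_round E he h
  rwa [h2] at this

theorem look_root {n : ℕ} {E : List (ℕ × ℕ × ℕ)} {R : ℕ → List ℕ → Prop}
    {S : List (ℕ × List ℕ)} (h : Inv n E R S) : look S 0 = [] := by
  have h1 : (0 : ℕ) ∈ S.map Prod.fst := List.mem_map.2 ⟨_, h.root, rfl⟩
  have h2 := look_mem h1
  have h3 := h.root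
  exact (Prod.mk.inj (List.inj_on_of_nodup_map h.nodup h2 h3 rfl)).2

theorem algo_correct (hn : 0 < n) (hA : ∀ k i j, 0 ≤ A k i j) (hp : ∃ α, IsPositive A α) :
    ∃ α : Fin m → ℕ, IsPositive A α ∧ algo (code A) = List.ofFn α := by
  obtain ⟨α, hα1, hα⟩ := hp
  have hm : 0 < m := by
    rcases Nat.eq_zero_or_pos m with rfl | h
    · simp at hα1
    · exact h
  have hW : ∀ i j, Walk A i j α := fun i j => (walk_iff hA α i j).1 (hα i j)
  set E := edgesC (code A) with hE
  let r : Fin n := ⟨0, hn⟩
  let R : ℕ → List ℕ → Prop := fun v w => ∃ hv : v < n, Walk A r ⟨v, hv⟩ (vecOf m w)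
  let R' : ℕ → List ℕ → Prop := fun v w => ∃ hv : v < n, Walk A ⟨v, hv⟩ r (vecOf m w)
  obtain ⟨hI, hcl⟩ := bfs_closed (n := n) (E := E) (R := R)
    (by
      intro e he
      obtain ⟨u, k, v, rfl, _⟩ := (mem_edges hm).1 he
      exact v.2.le)
    (by
      intro e he w hw
      obtain ⟨u, k, v, rfl, h⟩ := (mem_edges hm).1 he
      obtain ⟨hv, hw⟩ := hw
      refine ⟨v.2, ?_⟩
      simp only
      rw [vecOf_cons, add_comm]
      exact hw.trans hA (Walk.single h))
    ⟨hn, by rw [vecOf_nil]; exact Walk.refl r⟩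
  obtain ⟨hI', hcl'⟩ := bfs_closed (n := n) (E := E.map rev) (R := R')
    (by
      intro e he
      obtain ⟨e', he', rfl⟩ := List.mem_map.1 he
      obtain ⟨u, k, v, rfl, _⟩ := (mem_edges hm).1 he'
      exact u.2.le)
    (by
      intro e he w hw
      obtain ⟨e', he', rfl⟩ := List.mem_map.1 he
      obtain ⟨u, k, v, rfl, h⟩ := (mem_edges hm).1 he'
      obtain ⟨hv, hw⟩ := hw
      refine ⟨u.2, ?_⟩
      simp only [rev]
      rw [vecOf_cons]
      exact (Walk.single h).trans hA hw)
    ⟨hn, by rw [vecOf_nil]; exact Walk.refl r⟩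
  set S := bfs n E with hS
  set S' := bfs n (E.map rev) with hS'
  have hdom : ∀ v : Fin n, (v : ℕ) ∈ S.map Prod.fst := by
    intro v
    have h1 : (0 : ℕ) ∈ S.map Prod.fst := List.mem_map.2 ⟨_, hI.root, rfl⟩
    refine Walk.cons_induction (j := v)
      (P := fun (i : Fin n) _ => (i : ℕ) ∈ S.map Prod.fst → (v : ℕ) ∈ S.map Prod.fst) hA
      (fun h => h) ?_ (hW r v) h1
    intro i l k _ hk hl hi
    exact hl (hcl (i, k, l) ((mem_edges hm).2 ⟨i, k, l, rfl, hk⟩) hi)
  have hdom' : ∀ v : Fin n, (v : ℕ) ∈ S'.map Prod.fst := by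
    intro v
    have h1 : (0 : ℕ) ∈ S'.map Prod.fst := List.mem_map.2 ⟨_, hI'.root, rfl⟩
    refine Walk.cons_induction (j := r)
      (P := fun (i : Fin n) _ => (i : ℕ) ∈ S'.map Prod.fst) hA h1 ?_ (hW v r)
    intro i l k _ hk hl
    exact hcl' (l, k, i) (List.mem_map.2 ⟨(i, k, l), (mem_edges hm).2 ⟨i, k, l, rfl, hk⟩, rfl⟩) hl
  let P : Fin n → Fin m → ℕ := fun v => vecOf m (look S v)
  let Q : Fin n → Fin m → ℕ := fun v => vecOf m (look S' v)
  have hP : ∀ v, Walk A r v (P v) := fun v => (hI.good _ (look_mem (hdom v))).2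
  have hQ : ∀ v, Walk A v r (Q v) := fun v => (hI'.good _ (look_mem (hdom' v))).2
  have hPr : P r = 0 := by
    change vecOf m (look S 0) = 0
    rw [look_root hI, vecOf_nil]
  have hPK : ∀ v k, P v k + 1 ≤ n + 1 := by
    intro v k
    have h1 := vecOf_le (m := m) (look S v) k
    have h2 := hI.len _ (look_mem (hdom v))
    have h3 := length_le_of_inv hI
    change vecOf m (look S v) k + 1 ≤ n + 1
    simp only at h2
    omega
  have hQK : ∀ v k, Q v k ≤ n + 1 := by
    intro v k
    have h1 := vecOf_le (m := m) (look S' v) k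
    have h2 := hI'.len _ (look_mem (hdom' v))
    have h3 := length_le_of_inv hI'
    change vecOf m (look S' v) k ≤ n + 1
    simp only at h2
    omega
  have hsum : ∀ k : Fin m, (∑ x, gen A P Q x) k = (allWords (code A) S S').count (k : ℕ) := by
    intro k
    rw [Fintype.sum_sum_type]
    unfold allWords edgesC
    rw [dimN_code A hm, length_code, List.count_append, Pi.add_apply]
    congr 1
    · rw [List.flatMap_assoc, List.count_flatMap, sum_range_map, Finset.sum_apply,
        Fintype.sum_prod_type]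
      refine Finset.sum_congr rfl fun u _ => ?_
      simp only [Function.comp_apply]
      rw [List.flatMap_assoc, List.count_flatMap, sum_range_map, Fintype.sum_prod_type]
      refine Finset.sum_congr rfl fun c _ => ?_
      simp only [Function.comp_apply]
      rw [List.count_flatMap, List.map_map, sum_filter_map, sum_range_map]
      refine Finset.sum_congr rfl fun v _ => ?_
      simp only [Function.comp_apply]
      rw [adjC_code]
      simp only [gen, decide_eq_true_eq]
      split_ifs with h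
      · have h4 : List.count (k : ℕ) (look S u ++ (c : ℕ) :: look S' v) =
            vecOf m (look S u ++ (c : ℕ) :: look S' v) k := rfl
        rw [h4, vecOf_append, vecOf_cons]
        simp only [Pi.add_apply, P, Q]
        ring
      · rfl
    · rw [List.count_flatMap, sum_range_map, Finset.sum_apply]
      refine Finset.sum_congr rfl fun v _ => ?_
      simp only [Function.comp_apply]
      have h4 : List.count (k : ℕ) (look S v ++ look S' v) = vecOf m (look S v ++ look S' v) k := rfl
      rw [h4, vecOf_append]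
      rfl
  have hpos := positive_of hA (Nat.succ_le_succ (Nat.zero_le n)) hPr hP hQ hPK hQK hW
    (2 ^ expo n m) (factor_le n m)
  refine ⟨2 ^ expo n m • ∑ x, gen A P Q x, ⟨?_, fun i j => (walk_iff hA _ i j).2 (hpos i j)⟩, ?_⟩
  · -- some colour is used
    by_contra hcon
    have h0 : ∑ k, (2 ^ expo n m • ∑ x, gen A P Q x) k = 0 := by omega
    have h1 : ∀ k, (2 ^ expo n m • ∑ x, gen A P Q x) k = 0 := by
      intro k
      exact (Finset.sum_eq_zero_iff.1 h0) k (Finset.mem_univ k)
    -- the walk with vector `α` uses an edge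
    have h2 : ∃ (k : Fin m) (u v : Fin n), 0 < A k u v := by
      by_contra hno
      have : ∀ k, α k = 0 := fun k => walk_unused hA (hW r r) fun ⟨u, v, h⟩ => hno ⟨k, u, v, h⟩
      rw [Finset.sum_eq_zero fun k _ => this k] at hα1
      omega
    obtain ⟨k, u, v, hk⟩ := h2
    have h3 := h1 k
    rw [Pi.smul_apply, smul_eq_mul, mul_eq_zero] at h3
    rcases h3 with h3 | h3
    · exact absurd h3 (by positivity)
    · rw [Finset.sum_apply, Finset.sum_eq_zero_iff] at h3
      have h4 := h3 (Sum.inl (u, k, v)) (Finset.mem_univ _)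
      simp only [gen] at h4
      rw [if_pos hk] at h4
      simp at h4
  · unfold algo
    rw [dimN_code A hm, length_code, if_neg (by omega), List.ofFn_eq_map]
    rw [← List.map_coe_finRange_eq_range, List.map_map]
    refine List.map_congr_left fun k _ => ?_
    simp only [Function.comp_apply, Pi.smul_apply, smul_eq_mul]
    rw [hsum k]

end

end Pool.Agent.V11223.HW
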