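import Mathlib

/-!
# Bounded coefficients for generators of the lattice of all integer vectors
-/

namespace Pool.Agent.V11223.HW

open Finset

/-- Integer vectors with entries at most `K` that generate all integer vectors represent each vector
with entries at most `X` by coefficients that are bounded explicitly. -/
theorem bounded_gen {ι κ : Type} [Fintype ι] [Fintype κ] [DecidableEq ι] [DecidableEq κ]
    (g : ι → κ → ℤ) (K X : ℕ) (hK : 1 ≤ K) (hg : ∀ i k, |g i k| ≤ K)
    (hspan : ∀ x : κ → ℤ, ∃ z : ι → ℤ, ∑ i, z i • g i = x)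
    (x : κ → ℤ) (hx : ∀ k, |x k| ≤ X) :
    ∃ z : ι → ℤ, (∑ i, z i • g i = x) ∧
      ∀ i, |z i| ≤ ((Fintype.card κ).factorial * K ^ Fintype.card κ *
        (1 + Fintype.card κ * (X + Fintype.card ι * K)) : ℕ) := by
  classical
  -- independent rows
  let v : ι → κ → ℚ := fun i k => (g i k : ℚ)
  obtain ⟨J, a, ha, hsp, hli⟩ := exists_linearIndependent' ℚ v
  have htop : Submodule.span ℚ (Set.range v) = ⊤ := by
    rw [eq_top_iff, ← (Pi.basisFun ℚ κ).span_eq, Submodule.span_le]
    rintro _ ⟨k, rfl⟩
    obtain ⟨z, hz⟩ := hspan (Pi.single k 1)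
    have : (Pi.basisFun ℚ κ) k = ∑ i, (z i : ℚ) • v i := by
      ext l
      have h1 := congrFun hz l
      simp only [Finset.sum_apply, Pi.smul_apply, smul_eq_mul] at h1
      simp only [Pi.basisFun_apply, Finset.sum_apply, Pi.smul_apply, smul_eq_mul, v]
      have h2 : ((∑ i, z i * g i l : ℤ) : ℚ) = ((Pi.single k (1 : ℤ) : κ → ℤ) l : ℚ) := by
        rw [h1]
      push_cast at h2
      rw [h2]
      by_cases hkl : l = k
      · subst hkl; simp
      · simp [Pi.single_eq_of_ne hkl]
    rw [SetLike.mem_coe, this]
    exact Submodule.sum_mem _ fun i _ => Submodule.smul_mem _ _ (Submodule.subset_span ⟨i, rfl⟩)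
  have hsp' : ⊤ ≤ Submodule.span ℚ (Set.range (v ∘ a)) := by rw [hsp, htop]
  let b := Module.Basis.mk hli hsp'
  have : Fintype J := FiniteDimensional.fintypeBasisIndex b
  have hcard : Fintype.card J = Fintype.card κ := by
    have h1 := Module.finrank_eq_card_basis b
    rw [Module.finrank_fintype_fun_eq_card] at h1
    exact h1.symm
  let e : κ ≃ J := (Fintype.equivOfCardEq hcard).symm
  let s : κ → ι := fun k => a (e k)
  have hs : Function.Injective s := ha.comp e.injective
  let B : Matrix κ κ ℤ := fun k l => g (s k) l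
  have hBdet : B.det ≠ 0 := by
    have h1 : LinearIndependent ℚ (B.map (Int.castRingHom ℚ)).row := by
      have h2 : (B.map (Int.castRingHom ℚ)).row = (v ∘ a) ∘ e := by
        funext k l
        rfl
      rw [h2]
      exact hli.comp e e.injective
    rw [Matrix.linearIndependent_rows_iff_isUnit, Matrix.isUnit_iff_isUnit_det] at h1
    intro h0
    rw [← RingHom.mapMatrix_apply, ← RingHom.map_det, h0, map_zero] at h1
    exact not_isUnit_zero h1
  set D : ℤ := |B.det| with hD
  have hDpos : 0 < D := abs_pos.2 hBdet
  set F : ℕ := (Fintype.card κ).factorial * K ^ Fintype.card κ with hF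
  have hDle : D ≤ F := by
    have := Matrix.det_le (A := B) (abv := AbsoluteValue.abs) (x := (K : ℤ))
      (fun i j => hg (s i) j)
    rw [hF]
    simpa [hD] using this
  obtain ⟨z, hz⟩ := hspan x
  -- y
  let q : ι → ℤ := fun i => z i / D
  let ρ : ι → ℤ := fun i => z i % D
  have hρ : ∀ i, 0 ≤ ρ i ∧ ρ i < D := fun i =>
    ⟨Int.emod_nonneg _ hDpos.ne', Int.emod_lt_of_pos _ hDpos⟩
  let y : κ → ℤ := ∑ i, q i • g i
  have hzq : ∀ i, z i = ρ i + D * q i := fun i => (Int.emod_add_mul_ediv (z i) D).symm
  have hxy : x = ∑ i, ρ i • g i + D • y := by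
    rw [← hz]
    have : ∀ i, z i • g i = ρ i • g i + D • (q i • g i) := by
      intro i
      rw [smul_smul, ← add_smul, ← hzq]
    rw [Finset.sum_congr rfl fun i _ => this i, Finset.sum_add_distrib, ← Finset.smul_sum]
  have hyb : ∀ k, |y k| ≤ (X + Fintype.card ι * K : ℕ) := by
    intro k
    have h1 : D * y k = x k - ∑ i, ρ i * g i k := by
      have := congrFun hxy k
      simp only [Pi.add_apply, Finset.sum_apply, Pi.smul_apply, smul_eq_mul] at this
      linarith
    have h2 : |∑ i, ρ i * g i k| ≤ Fintype.card ι * (D * K) := by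
      refine (Finset.abs_sum_le_sum_abs _ _).trans ?_
      have : ∀ i ∈ (Finset.univ : Finset ι), |ρ i * g i k| ≤ D * K := by
        intro i _
        rw [abs_mul]
        have h3 : |ρ i| ≤ D := by rw [abs_of_nonneg (hρ i).1]; exact (hρ i).2.le
        exact mul_le_mul h3 (hg i k) (abs_nonneg _) hDpos.le
      refine (Finset.sum_le_sum this).trans ?_
      simp
    have h3 : |D * y k| ≤ X + Fintype.card ι * (D * K) := by
      rw [h1]
      refine (abs_sub _ _).trans ?_
      exact add_le_add (hx k) h2
    rw [abs_mul, abs_of_pos hDpos] at h3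
    have h4 : D * |y k| ≤ D * (X + Fintype.card ι * K) := by
      have h5 : (X : ℤ) ≤ D * X := by
        have : (0 : ℤ) ≤ X := Int.natCast_nonneg X
        nlinarith
      nlinarith
    have := le_of_mul_le_mul_left h4 hDpos
    push_cast
    linarith
  -- D y as a combination of rows
  let sg : ℤ := if 0 ≤ B.det then 1 else -1
  have hsg : D = sg * B.det := by
    rw [hD]
    by_cases h : 0 ≤ B.det
    · simp [sg, h, abs_of_nonneg h]
    · simp [sg, h, abs_of_neg (not_le.1 h)]
  let t : κ → ℤ := sg • (Matrix.vecMul y B.adjugate)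
  have ht : D • y = ∑ k, t k • g (s k) := by
    have h1 : Matrix.vecMul (Matrix.vecMul y B.adjugate) B = B.det • y := by
      rw [Matrix.vecMul_vecMul, Matrix.adjugate_mul, Matrix.vecMul_smul, Matrix.vecMul_one]
    have h2 : ∑ k, t k • g (s k) = sg • Matrix.vecMul (Matrix.vecMul y B.adjugate) B := by
      ext l
      have h3 : ∀ k, t k = sg * (Matrix.vecMul y B.adjugate) k := fun k => rfl
      have h4 : (Matrix.vecMul (Matrix.vecMul y B.adjugate) B) l =
          ∑ k, (Matrix.vecMul y B.adjugate) k * g (s k) l := rfl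
      simp only [Finset.sum_apply, Pi.smul_apply, smul_eq_mul]
      rw [h4, Finset.mul_sum]
      refine Finset.sum_congr rfl fun k _ => ?_
      rw [h3, mul_assoc]
    rw [h2, h1, smul_smul, hsg]
  have htb : ∀ k, |t k| ≤ (F * (Fintype.card κ * (X + Fintype.card ι * K)) : ℕ) := by
    intro k
    have h1 : |t k| = |∑ l, y l * B.adjugate l k| := by
      simp only [t, Pi.smul_apply, smul_eq_mul, abs_mul, Matrix.vecMul, dotProduct]
      have : |sg| = 1 := by
        by_cases h : 0 ≤ B.det <;> simp [sg, h]
      rw [this, one_mul]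
    have hadj : ∀ l, |B.adjugate l k| ≤ F := by
      intro l
      rw [Matrix.adjugate_apply]
      have := Matrix.det_le (A := B.updateRow k (Pi.single l 1)) (abv := AbsoluteValue.abs)
        (x := (K : ℤ)) (fun i j => by
          by_cases hik : i = k
          · subst hik
            rw [Matrix.updateRow_self]
            by_cases hjl : j = l
            · subst hjl; simp; exact_mod_cast hK
            · simp [Pi.single_eq_of_ne hjl]
          · rw [Matrix.updateRow_ne hik]
            exact hg (s i) j)
      rw [hF]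
      simpa using this
    rw [h1]
    refine (Finset.abs_sum_le_sum_abs _ _).trans ?_
    have h2 : ∀ l ∈ (Finset.univ : Finset κ), |y l * B.adjugate l k| ≤
        ((X + Fintype.card ι * K : ℕ) : ℤ) * F := by
      intro l _
      rw [abs_mul]
      exact mul_le_mul (hyb l) (hadj l) (abs_nonneg _) (Int.natCast_nonneg _)
    refine (Finset.sum_le_sum h2).trans ?_
    simp only [Finset.sum_const, Finset.card_univ, nsmul_eq_mul]
    push_cast
    nlinarith
  refine ⟨fun i => ρ i + ∑ k, if s k = i then t k else 0, ?_, ?_⟩
  · rw [hxy, ht]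
    simp only [add_smul, Finset.sum_add_distrib]
    congr 1
    simp only [Finset.sum_smul, ite_smul, zero_smul]
    rw [Finset.sum_comm]
    refine Finset.sum_congr rfl fun k _ => ?_
    simp
  · intro i
    have h1 : |∑ k, if s k = i then t k else 0| ≤
        (F * (Fintype.card κ * (X + Fintype.card ι * K)) : ℕ) := by
      by_cases h : ∃ k, s k = i
      · obtain ⟨k, hk⟩ := h
        rw [Finset.sum_eq_single k]
        · simpa [hk] using htb k
        · intro l _ hl
          rw [if_neg]
          intro h2
          exact hl (hs (h2.trans hk.symm))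
        · simp
      · push Not at h
        rw [Finset.sum_eq_zero]
        · rw [abs_zero]; exact Int.natCast_nonneg _
        · intro k _
          rw [if_neg (h k)]
    refine (abs_add_le _ _).trans ?_
    have h3 : |ρ i| ≤ F := by
      rw [abs_of_nonneg (hρ i).1]
      exact (hρ i).2.le.trans hDle
    push_cast at h1 ⊢
    nlinarith

end Pool.Agent.V11223.HW
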