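import Pool.Agent.V11223.HW.Core

/-!
# A positive Hurwitz product from a closed walk system
-/

namespace Pool.Agent.V11223.HW

open Finset

variable {n m : ℕ} {A : Fin m → Matrix (Fin n) (Fin n) ℚ}

/-- Index set of the closed walks: the triples `(u, k, v)` and the vertices. -/
abbrev Ix (n m : ℕ) : Type := (Fin n × Fin m × Fin n) ⊕ Fin n

/-- The colour vectors of the closed walks at the root. -/
def gen (A : Fin m → Matrix (Fin n) (Fin n) ℚ) (P Q : Fin n → Fin m → ℕ) : Ix n m → Fin m → ℕ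
  | Sum.inl e => if 0 < A e.2.1 e.1 e.2.2 then P e.1 + Pi.single e.2.1 1 + Q e.2.2 else 0
  | Sum.inr v => P v + Q v

/-- The factor. -/
def factor (n m K : ℕ) : ℕ :=
  m.factorial * K ^ m * (1 + m * (2 * K + (n * (m * n) + n) * K))

theorem Walk.nsmul (hA : ∀ k i j, 0 ≤ A k i j) {i : Fin n} {v : Fin m → ℕ} (h : Walk A i i v)
    (c : ℕ) : Walk A i i (c • v) := by
  induction c with
  | zero => rw [zero_smul]; exact Walk.refl i
  | succ c ih => rw [succ_nsmul]; exact ih.trans hA h

theorem Walk.sum (hA : ∀ k i j, 0 ≤ A k i j) {i : Fin n} {ι : Type} (s : Finset ι)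
    (v : ι → Fin m → ℕ) (h : ∀ x ∈ s, Walk A i i (v x)) : Walk A i i (∑ x ∈ s, v x) := by
  classical
  induction s using Finset.induction_on with
  | empty => rw [Finset.sum_empty]; exact Walk.refl i
  | insert a s ha ih =>
    rw [Finset.sum_insert ha]
    exact (h a (Finset.mem_insert_self a s)).trans hA
      (ih fun x hx => h x (Finset.mem_insert_of_mem hx))

theorem gen_walk (hA : ∀ k i j, 0 ≤ A k i j) {r : Fin n} {P Q : Fin n → Fin m → ℕ}
    (hP : ∀ v, Walk A r v (P v)) (hQ : ∀ v, Walk A v r (Q v)) (x : Ix n m) :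
    Walk A r r (gen A P Q x) := by
  rcases x with ⟨u, k, v⟩ | v
  · simp only [gen]
    split_ifs with h
    · exact ((hP u).trans hA (Walk.single h)).trans hA (hQ v)
    · exact Walk.refl r
  · exact (hP v).trans hA (hQ v)

/-- the integer combinations of the closed walks -/
def InLat (A : Fin m → Matrix (Fin n) (Fin n) ℚ) (P Q : Fin n → Fin m → ℕ) (x : Fin m → ℤ) : Prop :=
  ∃ z : Ix n m → ℤ, ∑ i, z i • (fun k => ((gen A P Q i k : ℕ) : ℤ)) = x

theorem InLat.zero {P Q : Fin n → Fin m → ℕ} : InLat A P Q 0 := ⟨0, by simp⟩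

theorem InLat.add {P Q : Fin n → Fin m → ℕ} {x y : Fin m → ℤ} (hx : InLat A P Q x)
    (hy : InLat A P Q y) : InLat A P Q (x + y) := by
  obtain ⟨z, rfl⟩ := hx
  obtain ⟨z', rfl⟩ := hy
  exact ⟨z + z', by simp only [Pi.add_apply, add_smul, Finset.sum_add_distrib]⟩

theorem InLat.neg {P Q : Fin n → Fin m → ℕ} {x : Fin m → ℤ} (hx : InLat A P Q x) :
    InLat A P Q (-x) := by
  obtain ⟨z, rfl⟩ := hx
  exact ⟨-z, by simp only [Pi.neg_apply, neg_smul, Finset.sum_neg_distrib]⟩

theorem InLat.smul {P Q : Fin n → Fin m → ℕ} {x : Fin m → ℤ} (c : ℤ) (hx : InLat A P Q x) :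
    InLat A P Q (c • x) := by
  obtain ⟨z, rfl⟩ := hx
  exact ⟨c • z, by simp only [Pi.smul_apply, smul_eq_mul, mul_smul, Finset.smul_sum]⟩

theorem InLat.gen {P Q : Fin n → Fin m → ℕ} (i : Ix n m) :
    InLat A P Q (fun k => ((gen A P Q i k : ℕ) : ℤ)) := by
  classical
  exact ⟨Pi.single i 1, by
    rw [Finset.sum_eq_single i]
    · simp
    · intro j _ hj
      rw [Pi.single_eq_of_ne hj, zero_smul]
    · simp⟩

/-- cast of a vector -/
def ca (v : Fin m → ℕ) : Fin m → ℤ := fun k => ((v k : ℕ) : ℤ)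

theorem ca_add (v w : Fin m → ℕ) : ca (v + w) = ca v + ca w := by
  funext k; simp [ca]

theorem walk_inLat (hA : ∀ k i j, 0 ≤ A k i j) {r : Fin n} {P Q : Fin n → Fin m → ℕ}
    (hPr : P r = 0) {v : Fin m → ℕ} (h : Walk A r r v) : InLat A P Q (ca v) := by
  have key : ∀ {i : Fin n} {v : Fin m → ℕ}, Walk A i r v → InLat A P Q (ca (P i + v)) := by
    intro i v h
    refine Walk.cons_induction (P := fun i v => InLat A P Q (ca (P i + v))) hA ?_ ?_ h
    · rw [hPr]
      have h0 : ca (0 + 0 : Fin m → ℕ) = 0 := by funext k; simp [ca]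
      rw [h0]
      exact InLat.zero
    · intro i l k v hk hv
      have h1 : InLat A P Q (ca (P i + Pi.single k 1 + Q l)) := by
        have := InLat.gen (A := A) (P := P) (Q := Q) (Sum.inl (i, k, l))
        have h0 : HW.gen A P Q (Sum.inl (i, k, l)) = P i + Pi.single k 1 + Q l := by
          simp only [HW.gen]
          rw [if_pos hk]
        rw [h0] at this
        exact this
      have h2 : InLat A P Q (ca (P l + Q l)) := InLat.gen (Sum.inr l)
      have h3 := (h1.add h2.neg).add hv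
      have : ca (P i + Pi.single k 1 + Q l) + -ca (P l + Q l) + ca (P l + v) =
          ca (P i + (Pi.single k 1 + v)) := by
        simp only [ca_add]
        abel
      rwa [this] at h3
  have := key h
  rwa [hPr, zero_add] at this

theorem single_inLat (hA : ∀ k i j, 0 ≤ A k i j) {r : Fin n} {P Q : Fin n → Fin m → ℕ}
    (hPr : P r = 0) {α : Fin m → ℕ} (hα : ∀ i j, Walk A i j α) {k : Fin m} {u v : Fin n}
    (hk : 0 < A k u v) : InLat A P Q (ca (Pi.single k 1)) := by
  have h1 : Walk A r r (α + Pi.single k 1 + α) :=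
    ((hα r u).trans hA (Walk.single hk)).trans hA (hα v r)
  have h2 : Walk A r r (α + α) := (hα r r).trans hA (hα r r)
  have h3 := (walk_inLat (Q := Q) hA hPr h1).add (walk_inLat (Q := Q) hA hPr h2).neg
  have : ca (α + Pi.single k 1 + α) + -ca (α + α) = ca (Pi.single k 1) := by
    simp only [ca_add]
    abel
  rwa [this] at h3

/-- The colours that occur. -/
def Used (A : Fin m → Matrix (Fin n) (Fin n) ℚ) (k : Fin m) : Prop := ∃ u v, 0 < A k u v

theorem walk_unused (hA : ∀ k i j, 0 ≤ A k i j) {i j : Fin n} {v : Fin m → ℕ} (h : Walk A i j v)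
    {k : Fin m} (hk : ¬ Used A k) : v k = 0 := by
  refine Walk.cons_induction (P := fun _ v => v k = 0) hA rfl ?_ h
  intro i l c v hc hv
  rw [Pi.add_apply, hv, Pi.single_eq_of_ne, add_zero]
  rintro rfl
  exact hk ⟨i, l, hc⟩

theorem factor_mono {c n m K X : ℕ} (hc : c ≤ m) (hX : X ≤ 2 * K) (hK : 1 ≤ K) :
    c.factorial * K ^ c * (1 + c * (X + Fintype.card (Ix n m) * K)) ≤ factor n m K := by
  unfold factor
  have h1 : Fintype.card (Ix n m) = n * (m * n) + n := by simp [Ix]
  rw [h1]
  refine Nat.mul_le_mul (Nat.mul_le_mul (Nat.factorial_le hc) (Nat.pow_le_pow_right hK hc)) ?_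
  refine Nat.add_le_add_left (Nat.mul_le_mul hc ?_) 1
  omega

theorem gen_le {P Q : Fin n → Fin m → ℕ} {K : ℕ} (hPK : ∀ v k, P v k + 1 ≤ K)
    (hQK : ∀ v k, Q v k ≤ K) (x : Ix n m) (k : Fin m) : gen A P Q x k ≤ 2 * K := by
  rcases x with ⟨u, c, v⟩ | v
  · simp only [gen]
    split_ifs with h
    · simp only [Pi.add_apply]
      have h1 := hPK u k
      have h2 := hQK v k
      have h3 : (Pi.single c 1 : Fin m → ℕ) k ≤ 1 := by
        by_cases h : k = c
        · subst h; simp
        · simp [Pi.single_eq_of_ne h]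
      omega
    · simp
  · have h1 := hPK v k
    have h2 := hQK v k
    simp only [gen, Pi.add_apply]
    omega

/-- **Main step.** -/
theorem positive_of (hA : ∀ k i j, 0 ≤ A k i j) {r : Fin n} {P Q : Fin n → Fin m → ℕ} {K : ℕ}
    (hK : 1 ≤ K)
    (hPr : P r = 0) (hP : ∀ v, Walk A r v (P v)) (hQ : ∀ v, Walk A v r (Q v))
    (hPK : ∀ v k, P v k + 1 ≤ K) (hQK : ∀ v k, Q v k ≤ K) {α : Fin m → ℕ}
    (hα : ∀ i j, Walk A i j α) (N : ℕ) (hN : factor n m (2 * K) ≤ N) (i j : Fin n) :
    Walk A i j (N • ∑ x, gen A P Q x) := by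
  classical
  let κ : Type := {k : Fin m // Used A k}
  have hcard : Fintype.card κ ≤ m := by
    have := Fintype.card_subtype_le (fun k : Fin m => Used A k)
    simpa using this
  let g : Ix n m → κ → ℤ := fun x k => ((gen A P Q x k.1 : ℕ) : ℤ)
  have hg : ∀ x k, |g x k| ≤ ((2 * K : ℕ) : ℤ) := by
    intro x k
    simp only [g]
    rw [Nat.abs_cast]
    exact_mod_cast gen_le hPK hQK x k.1
  have hspan : ∀ x : κ → ℤ, ∃ z : Ix n m → ℤ, ∑ i, z i • g i = x := by
    intro x
    have h1 : InLat A P Q (∑ k : κ, x k • ca (Pi.single k.1 1)) := by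
      have : ∀ s : Finset κ, InLat A P Q (∑ k ∈ s, x k • ca (Pi.single k.1 1)) := by
        intro s
        induction s using Finset.induction_on with
        | empty => rw [Finset.sum_empty]; exact InLat.zero
        | insert a s ha ih =>
          rw [Finset.sum_insert ha]
          obtain ⟨u, v, huv⟩ := a.2
          exact ((single_inLat hA hPr hα huv).smul (x a)).add ih
      exact this _
    obtain ⟨z, hz⟩ := h1
    refine ⟨z, ?_⟩
    funext k
    have h2 := congrFun hz k.1
    simp only [Finset.sum_apply, Pi.smul_apply, smul_eq_mul] at h2 ⊢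
    simp only [g]
    rw [h2, Finset.sum_eq_single k]
    · simp [ca]
    · intro l _ hl
      have : (k : Fin m) ≠ l := fun h => hl (Subtype.ext h.symm)
      simp [ca, Pi.single_eq_of_ne this]
    · simp
  let x : κ → ℤ := fun k => -(((Q i + P j) k.1 : ℕ) : ℤ)
  have hx : ∀ k, |x k| ≤ ((2 * K : ℕ) : ℤ) := by
    intro k
    simp only [x]
    rw [abs_neg, Nat.abs_cast]
    have h1 := hPK j k.1
    have h2 := hQK i k.1
    rw [Pi.add_apply]
    exact_mod_cast (by omega : Q i k.1 + P j k.1 ≤ 2 * K)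
  obtain ⟨z, hz, hzb⟩ := bounded_gen g (2 * K) (2 * K) (by omega) hg hspan x hx
  have hzN : ∀ y, |z y| ≤ (N : ℤ) := by
    intro y
    refine (hzb y).trans ?_
    exact_mod_cast (factor_mono hcard (by omega) (by omega)).trans hN
  have hnn : ∀ y, 0 ≤ (N : ℤ) + z y := by
    intro y
    have := (abs_le.1 (hzN y)).1
    linarith
  have hgw : ∀ y, Walk A r r (gen A P Q y) := gen_walk hA hP hQ
  have key : N • ∑ y, gen A P Q y = Q i + (∑ y, ((N : ℤ) + z y).toNat • gen A P Q y) + P j := by
    funext k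
    by_cases hk : Used A k
    · have h1 := congrFun hz ⟨k, hk⟩
      simp only [Finset.sum_apply, Pi.smul_apply, smul_eq_mul, g, x, Pi.add_apply] at h1
      have h2 : ((N * ∑ y, gen A P Q y k : ℕ) : ℤ) =
          ((Q i k + (∑ y, ((N : ℤ) + z y).toNat * gen A P Q y k) + P j k : ℕ) : ℤ) := by
        push_cast
        have h3 : ∀ y, ((((N : ℤ) + z y).toNat : ℕ) : ℤ) = N + z y := fun y =>
          Int.toNat_of_nonneg (hnn y)
        simp only [h3, add_mul, Finset.sum_add_distrib]
        rw [Finset.mul_sum]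
        push_cast at h1
        linarith
      have h4 : N * ∑ y, gen A P Q y k =
          Q i k + (∑ y, ((N : ℤ) + z y).toNat * gen A P Q y k) + P j k := by exact_mod_cast h2
      simpa [Finset.sum_apply] using h4
    · have h1 : ∀ y, gen A P Q y k = 0 := fun y => walk_unused hA (hgw y) hk
      have h2 := walk_unused hA (hQ i) hk
      have h3 := walk_unused hA (hP j) hk
      simp [Finset.sum_apply, h1, h2, h3]
  rw [key]
  refine ((hQ i).trans hA (Walk.sum hA _ _ fun y _ => (hgw y).nsmul hA _)).trans hA (hP j)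

end Pool.Agent.V11223.HW
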